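import Mathlib
import Pool.Agent.TP975.LR.Lb3

/-!
The Liouville function at the values of almost all polynomials: all short arithmetic progressions and all polynomial
phases at once.
-/

set_option autoImplicit false

namespace Pool.Agent.Results.MP_648c71_nt.AllShortProgressions

open Finset Polynomial

/-- the Liouville function on the integers, `lam (-m) = lam m`, `lam 0 = 0` -/
noncomputable def lam (m : ℤ) : ℝ := if m = 0 then 0 else (-1) ^ ArithmeticFunction.cardFactors m.natAbs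

/-- the value at `t` of the polynomial with the coefficients `a 0, ..., a d` -/
def value {d : ℕ} (a : Fin (d + 1) → ℤ) (t : ℤ) : ℤ := ∑ c, a c * t ^ (c : ℕ)

/-- the polynomials of degree at most `d` with coefficients in `[-H, H]` -/
noncomputable def box (d H : ℕ) : Finset (Fin (d + 1) → ℤ) := Fintype.piFinset fun _ => Icc (-(H : ℤ)) H

/-- the sum of `exp (2 π i g (n)) lam (f (r + q n))` over `1 ≤ n ≤ N` -/
noncomputable def S {d : ℕ} (f : Fin (d + 1) → ℤ) (g : ℝ[X]) (q r N : ℕ) : ℂ :=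
  ∑ n ∈ Icc 1 N, Complex.exp (2 * Real.pi * Complex.I * ((g.eval (n : ℝ) : ℝ) : ℂ)) *
    ((lam (value f ((r + q * n : ℕ) : ℤ)) : ℝ) : ℂ)

open Classical in
/-- For almost all polynomials `f` of degree at most `d` with coefficients of size at most `H`, the sums of
`exp (2 π i g (n)) lam (f (r + q n))` over `1 ≤ n ≤ N` are at most `N / log ^ η H` for ALL progressions `r + q n` with
`q ≥ 1`, `r ≥ 0` and `r + q N ≤ log ^ A H`, and ALL real polynomials `g` of degree at most `s`, provided that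
`q (r + q N) N ^ (s (s + 1) / 2) log ^ ε H ≤ N ^ (d + 1)`. The proportion of the exceptional polynomials is at most
`log ^ (-η) H`. -/
theorem result (d s A : ℕ) (hs : s * (s + 1) < 2 * d) (ε : ℝ) (hε : 0 < ε) :
    ∃ η : ℝ, 0 < η ∧ ∃ H₀ : ℕ, ∀ H : ℕ, H₀ ≤ H →
    (((box d H).filter (fun f => ∃ (q r N : ℕ) (g : ℝ[X]), 1 ≤ q ∧ g.natDegree ≤ s ∧
      ((r + q * N : ℕ) : ℝ) ≤ Real.log H ^ A ∧
      (q : ℝ) * ((r + q * N : ℕ) : ℝ) * (N : ℝ) ^ (s * (s + 1) / 2) * Real.log H ^ ε ≤ (N : ℝ) ^ (d + 1) ∧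
      N / Real.log H ^ η < ‖S f g q r N‖)).card : ℝ) ≤ (box d H).card / Real.log H ^ η := by
  obtain ⟨η, hη, H0, h0⟩ := Pool.Agent.TP975.LR.all_prog Pool.Agent.TP975.LR.lamI Pool.Agent.TP975.LR.winB_lamI
    Pool.Agent.TP975.LR.lamI_abs d s A hs ε hε
  refine ⟨η, hη, H0, fun H hH => ?_⟩
  obtain ⟨Bad, _, hB, hall⟩ := h0 H hH
  refine le_trans ?_ hB
  have hsub : (box d H).filter (fun f => ∃ (q r N : ℕ) (g : ℝ[X]), 1 ≤ q ∧ g.natDegree ≤ s ∧
      ((r + q * N : ℕ) : ℝ) ≤ Real.log H ^ A ∧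
      (q : ℝ) * ((r + q * N : ℕ) : ℝ) * (N : ℝ) ^ (s * (s + 1) / 2) * Real.log H ^ ε ≤ (N : ℝ) ^ (d + 1) ∧
      N / Real.log H ^ η < ‖S f g q r N‖) ⊆ Bad := by
    intro f hf
    rw [mem_filter] at hf
    obtain ⟨hf1, q, r, N, g, hq, hg, hX, hc, hlt⟩ := hf
    by_contra hbad
    exact absurd (hall f hf1 hbad q r N hq hX hc g hg) (not_le.2 hlt)
  exact_mod_cast card_le_card hsub

end Pool.Agent.Results.MP_648c71_nt.AllShortProgressions
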