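import Mathlib
import Pool.Agent.TP975.LR.Lc3

/-!
The Liouville function at the products `f (a_1 n + b_1) ... f (a_k n + b_k)` of values of almost all polynomials `f`:
all linear forms and all short intervals at once.
-/

set_option autoImplicit false

namespace Pool.Agent.Results.MP_648c71_nt.CorrelationsAlongForms

open Finset

/-- the Liouville function on the integers, `lam (-m) = lam m`, `lam 0 = 0` -/
noncomputable def lam (m : ℤ) : ℝ := if m = 0 then 0 else (-1) ^ ArithmeticFunction.cardFactors m.natAbs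

/-- the value at `t` of the polynomial with the coefficients `a 0, ..., a d` -/
def value {d : ℕ} (a : Fin (d + 1) → ℤ) (t : ℤ) : ℤ := ∑ c, a c * t ^ (c : ℕ)

/-- the polynomials of degree at most `d` with coefficients in `[-H, H]` -/
noncomputable def box (d H : ℕ) : Finset (Fin (d + 1) → ℤ) := Fintype.piFinset fun _ => Icc (-(H : ℤ)) H

/-- the sum of `lam (∏ i, f (a i * n + b i))` over `M < n ≤ M + N`, where `v i = (a i, b i)` -/
noncomputable def S {d k : ℕ} (f : Fin (d + 1) → ℤ) (v : Fin k → ℤ × ℤ) (M N : ℕ) : ℝ :=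
  ∑ n ∈ Ioc M (M + N), lam (∏ i, value f ((v i).1 * (n : ℤ) + (v i).2))

/-- the product of the `|a i| (1 + |b i|)`, where `v i = (a i, b i)` -/
noncomputable def weight {k : ℕ} (v : Fin k → ℤ × ℤ) : ℝ :=
  ∏ i, (((v i).1.natAbs : ℝ) * (1 + ((v i).2.natAbs : ℝ)))

lemma lam_mul (m n : ℤ) : lam (m * n) = lam m * lam n := by
  unfold lam
  by_cases hm : m = 0
  · simp [hm]
  · by_cases hn : n = 0
    · simp [hn]
    · rw [if_neg (mul_ne_zero hm hn), if_neg hm, if_neg hn, Int.natAbs_mul,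
        ArithmeticFunction.cardFactors_mul (Int.natAbs_ne_zero.2 hm) (Int.natAbs_ne_zero.2 hn), pow_add]

lemma lam_one : lam 1 = 1 := by
  unfold lam
  simp

lemma lam_prod {ι : Type} (s : Finset ι) (f : ι → ℤ) : lam (∏ i ∈ s, f i) = ∏ i ∈ s, lam (f i) := by
  classical
  induction s using Finset.induction_on with
  | empty => simp [lam_one]
  | insert i s hi ih => rw [prod_insert hi, prod_insert hi, lam_mul, ih]

open Classical in
/-- Let `k m ≤ d`. For almost all polynomials `f` of degree at most `d` with coefficients of size at most `H`, the sums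
of `lam (f (a_1 n + b_1) ... f (a_k n + b_k))` over `M < n ≤ M + N` are at most `N / log ^ η H` for ALL `k`-tuples of
distinct linear forms `a_i n + b_i`, `a_i ≠ 0`, with coefficients of size at most `log ^ A H`, and ALL intervals
`(M, M + N]` contained in `[1, log ^ A H]`, provided that `(M + N) ∏ |a_i| (1 + |b_i|) log ^ ε H ≤ N ^ (m + 1)`. The
proportion of the exceptional polynomials is at most `log ^ (-η) H`. -/
theorem result (d k m A : ℕ) (hk : 1 ≤ k) (hm : 1 ≤ m) (hkm : k * m ≤ d) (ε : ℝ) (hε : 0 < ε) :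
    ∃ η : ℝ, 0 < η ∧ ∃ H₀ : ℕ, ∀ H : ℕ, H₀ ≤ H →
    (((box d H).filter (fun f => ∃ (v : Fin k → ℤ × ℤ) (M N : ℕ), Function.Injective v ∧ (∀ i, (v i).1 ≠ 0) ∧
      (∀ i, ((v i).1.natAbs : ℝ) ≤ Real.log H ^ A) ∧ (∀ i, ((v i).2.natAbs : ℝ) ≤ Real.log H ^ A) ∧
      ((M + N : ℕ) : ℝ) ≤ Real.log H ^ A ∧ ((M + N : ℕ) : ℝ) * weight v * Real.log H ^ ε ≤ (N : ℝ) ^ (m + 1) ∧
      N / Real.log H ^ η < |S f v M N|)).card : ℝ) ≤ (box d H).card / Real.log H ^ η := by
  obtain ⟨η, hη, H0, h0⟩ := Pool.Agent.TP975.LR.all_corr Pool.Agent.TP975.LR.lamI Pool.Agent.TP975.LR.winB_lamI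
    Pool.Agent.TP975.LR.lamI_abs d k m A hk hm hkm ε hε
  refine ⟨η, hη, H0, fun H hH => ?_⟩
  obtain ⟨Bad, _, hB, hall⟩ := h0 H hH
  refine le_trans ?_ hB
  have hsub : (box d H).filter (fun f => ∃ (v : Fin k → ℤ × ℤ) (M N : ℕ), Function.Injective v ∧ (∀ i, (v i).1 ≠ 0) ∧
      (∀ i, ((v i).1.natAbs : ℝ) ≤ Real.log H ^ A) ∧ (∀ i, ((v i).2.natAbs : ℝ) ≤ Real.log H ^ A) ∧
      ((M + N : ℕ) : ℝ) ≤ Real.log H ^ A ∧ ((M + N : ℕ) : ℝ) * weight v * Real.log H ^ ε ≤ (N : ℝ) ^ (m + 1) ∧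
      N / Real.log H ^ η < |S f v M N|) ⊆ Bad := by
    intro f hf
    rw [mem_filter] at hf
    obtain ⟨hf1, v, M, N, hinj, hv, hv1, hv2, hX, hc, hlt⟩ := hf
    by_contra hbad
    have h1 := hall f hf1 hbad v hinj hv hv1 hv2 M N hX hc
    have h2 : S f v M N = ∑ n ∈ Ioc M (M + N), Pool.Agent.TP975.LR.Cr Pool.Agent.TP975.LR.lamI v f n := by
      unfold S
      refine sum_congr rfl fun n _ => ?_
      rw [lam_prod]
      rfl
    rw [← h2] at h1
    exact absurd h1 (not_le.2 hlt)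
  exact_mod_cast card_le_card hsub

end Pool.Agent.Results.MP_648c71_nt.CorrelationsAlongForms
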